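import Pool.Agent.U174.AO.Stm

/-!
# Project AO (helper174), package PUR (helper467)
-/

set_option autoImplicit false

namespace Pool.Agent.U467.AO

open IsLocalRing Filter Pool.Agent.U174.AK Pool.Agent.U174.AO

theorem comp_val {F K L : Type} [Field F] [Field K] [Field L] {OF : ValuationSubring F}
    {O : ValuationSubring K} {P : ValuationSubring L} (i : VEmb OF O) (k : VEmb O P) (j : VEmb OF P)
    (h : ∀ x, k.f (i.f x) = j.f x) (γ : OF.ValueGroup) : k.val (i.val γ) = j.val γ := by
  obtain ⟨x, rfl⟩ := OF.valuation_surjective γ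
  rw [i.val_valuation, k.val_valuation, j.val_valuation, h]

theorem ult_le {K K' : Type} [Field K] [Field K'] {O : ValuationSubring K} {O' : ValuationSubring K'}
    {π : (ℕ → K) →+* K'} (hU : Ult O O' π) (x y : ℕ → K) (hy : ∀ j, y j ≠ 0) :
    O'.valuation (π x) ≤ O'.valuation (π y) ↔
      ∀ᶠ j in (hyperfilter ℕ : Filter ℕ), O.valuation (x j) ≤ O.valuation (y j) := by
  have hπy : π y ≠ 0 := by
    intro h
    rw [hU.zero] at h
    obtain ⟨j, hj⟩ := h.exists
    exact hy j hj
  have hx : x = (fun j => x j / y j) * y := by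
    funext j
    simp only [Pi.mul_apply]
    rw [div_mul_cancel₀ _ (hy j)]
  have h1 : O'.valuation (π x) ≤ O'.valuation (π y) ↔ π (fun j => x j / y j) ∈ O' := by
    rw [← ValuationSubring.valuation_le_one_iff]
    conv_lhs => rw [hx, map_mul, map_mul]
    have hv : 0 < O'.valuation (π y) := zero_lt_iff.mpr ((Valuation.ne_zero_iff _).mpr hπy)
    exact mul_le_iff_le_one_left hv
  rw [h1, hU.mem]
  refine eventually_congr (Eventually.of_forall fun j => ?_)
  rw [← ValuationSubring.valuation_le_one_iff, map_div₀,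
    div_le_one₀ (zero_lt_iff.mpr ((Valuation.ne_zero_iff _).mpr (hy j)))]

theorem ult_eq {K K' : Type} [Field K] [Field K'] {O : ValuationSubring K} {O' : ValuationSubring K'}
    {π : (ℕ → K) →+* K'} (hU : Ult O O' π) (x y : ℕ → K) (hx : ∀ j, x j ≠ 0) (hy : ∀ j, y j ≠ 0) :
    O'.valuation (π x) = O'.valuation (π y) ↔
      ∀ᶠ j in (hyperfilter ℕ : Filter ℕ), O.valuation (x j) = O.valuation (y j) := by
  rw [le_antisymm_iff, ult_le hU x y hy, ult_le hU y x hx, ← eventually_and]
  refine eventually_congr (Eventually.of_forall fun j => ?_)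
  rw [← le_antisymm_iff]

theorem t_PURU : S_PURU := by
  intro F K K' _ _ _ OF O O' π hU i hP
  let f : F →+* K' :=
    { toFun := fun x => π (fun _ => i.f x)
      map_one' := by
        rw [show (fun _ : ℕ => i.f 1) = (1 : ℕ → K) by funext j; simp, map_one]
      map_mul' := fun x y => by
        rw [show (fun _ : ℕ => i.f (x * y)) = (fun _ : ℕ => i.f x) * (fun _ : ℕ => i.f y) by
          funext j; simp, map_mul]
      map_zero' := by
        rw [show (fun _ : ℕ => i.f 0) = (0 : ℕ → K) by funext j; simp, map_zero]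
      map_add' := fun x y => by
        rw [show (fun _ : ℕ => i.f (x + y)) = (fun _ : ℕ => i.f x) + (fun _ : ℕ => i.f y) by
          funext j; simp, map_add] }
  have hf : ∀ x, f x = π (fun _ => i.f x) := fun x => rfl
  let i' : VEmb OF O' :=
    { f := f
      mem := fun x => by
        rw [hf, hU.mem, eventually_const, i.mem] }
  have hi' : ∀ x, i'.f x = π (fun _ => i.f x) := fun x => rfl
  refine ⟨i', hi', ?_⟩
  intro γ m hm hγ
  by_cases hγ0 : γ = 0
  · exact ⟨0, by rw [map_zero, hγ0]⟩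
  obtain ⟨δ, hδ⟩ := hγ
  obtain ⟨f0, rfl⟩ := OF.valuation_surjective δ
  rw [i'.val_valuation, hi'] at hδ
  obtain ⟨z', rfl⟩ := O'.valuation_surjective γ
  obtain ⟨z, rfl⟩ := hU.surj z'
  have hz0 : π z ≠ 0 := (Valuation.ne_zero_iff _).1 hγ0
  -- a representative without zeros
  classical
  obtain ⟨w, hw0, hwz⟩ : ∃ w : ℕ → K, (∀ j, w j ≠ 0) ∧ π w = π z := by
    refine ⟨fun j => if z j = 0 then 1 else z j, ?_, ?_⟩
    · intro j
      by_cases h : z j = 0
      · simp [h]
      · simp [h]
    · rw [← sub_eq_zero, ← map_sub, hU.zero]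
      have h1 : ∀ᶠ j in (hyperfilter ℕ : Filter ℕ), z j ≠ 0 := by
        rw [Ne, hU.zero] at hz0
        exact (Ultrafilter.eventually_not (f := hyperfilter ℕ)).2 hz0
      refine h1.mono fun j hj => ?_
      simp [hj]
  rw [← hwz] at hδ hγ0 ⊢
  have hf0 : i.f f0 ≠ 0 := by
    intro h
    have : (fun _ : ℕ => i.f f0) = (0 : ℕ → K) := by funext j; simp [h]
    rw [this, map_zero, map_zero] at hδ
    exact pow_ne_zero m hγ0 hδ.symm
  have h2 : O'.valuation (π (fun _ => i.f f0)) = O'.valuation (π (w ^ m)) := by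
    rw [hδ, map_pow, map_pow]
  have h2' := (ult_eq hU (fun _ => i.f f0) (w ^ m) (fun _ => hf0)
    (fun j => pow_ne_zero m (hw0 j))).1 h2
  obtain ⟨j0, hj0⟩ := h2'.exists
  have h3 : O.valuation (w j0) ∈ Set.range i.val := by
    refine hP _ m hm ⟨OF.valuation f0, ?_⟩
    rw [i.val_valuation, hj0, Pi.pow_apply, map_pow]
  obtain ⟨ε, hε⟩ := h3
  obtain ⟨g, rfl⟩ := OF.valuation_surjective ε
  rw [i.val_valuation] at hε
  have hg0 : i.f g ≠ 0 := by
    intro h
    rw [h, map_zero] at hε
    exact (Valuation.ne_zero_iff O.valuation).2 (hw0 j0) hε.symm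
  refine ⟨OF.valuation g, ?_⟩
  rw [i'.val_valuation, hi', ult_eq hU _ _ (fun _ => hg0) hw0]
  refine h2'.mono fun j hj => ?_
  rw [hε]
  have h4 : O.valuation (w j0) ^ m = O.valuation (w j) ^ m := by
    rw [← map_pow, ← map_pow]
    exact hj0.symm.trans hj
  exact (pow_left_inj₀ zero_le zero_le hm.ne').1 h4

theorem t_PURS : S_PURS := by
  intro F N _ _ OF V i M σ hP hM hσ
  let f : F →+* M := i.f.codRestrict M hM
  have hf : ∀ x, ((f x : M) : N) = i.f x := fun x => rfl
  have hσf : ∀ x, σ (f x) = f x := fun x => hσ (f x) ⟨x, hf x⟩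
  let i' : VEmb OF ((V.comap M.subtype).comap (σ : M →+* M)) :=
    { f := f
      mem := fun x => by
        rw [ValuationSubring.mem_comap, ValuationSubring.mem_comap]
        have h : M.subtype ((σ : M →+* M) (f x)) = i.f x := by
          change ((σ (f x) : M) : N) = i.f x
          rw [hσf, hf]
        rw [h, i.mem] }
  let k : VEmb ((V.comap M.subtype).comap (σ : M →+* M)) V :=
    { f := M.subtype.comp (σ : M →+* M)
      mem := fun x => by
        rw [ValuationSubring.mem_comap, ValuationSubring.mem_comap]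
        rfl }
  have hk : ∀ x, k.f (i'.f x) = i.f x := by
    intro x
    change ((σ (f x) : M) : N) = i.f x
    rw [hσf, hf]
  refine ⟨i', hf, ?_⟩
  intro γ m hm hγ
  obtain ⟨δ, hδ⟩ := hγ
  have h1 : k.val γ ∈ Set.range i.val := by
    refine hP _ m hm ⟨δ, ?_⟩
    rw [← comp_val i' k i hk, hδ, map_pow]
  obtain ⟨ε, hε⟩ := h1
  refine ⟨ε, ?_⟩
  apply k.val_strictMono.injective
  rw [comp_val i' k i hk, hε]

end Pool.Agent.U467.AO
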